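import Pool.Agent.H97R2.LPB.Props

/-! Integrability of polynomials times the weight. -/

open Polynomial Filter Topology MeasureTheory Pool.Agent.H337R2 Pool.Agent.LP

namespace Pool.Agent.LPB

namespace Int768

theorem aeval_An (a : ℕ) (z : ℂ) : aeval z (An a) = ∏ i ∈ Finset.range a, (z + (i : ℂ)) := by
  simp [An, map_prod]

theorem aeval_Pn (a b : ℕ) (z : ℂ) : aeval z (Pn a b) = ∏ k ∈ Finset.Icc a b, (z + (k : ℂ)) := by
  simp [Pn, map_prod]

theorem norm_ge (y : ℝ) (k : ℕ) : (1 / 2 : ℝ) ≤ ‖zl y + (k : ℂ)‖ := by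
  have h := Complex.abs_re_le_norm (zl y + (k : ℂ))
  have h1 : (zl y + (k : ℂ)).re = 1 / 2 + k := by
    simp [zl]
  rw [h1] at h
  have h2 : (0 : ℝ) ≤ k := Nat.cast_nonneg k
  rw [abs_of_nonneg (by linarith)] at h
  linarith

theorem norm_le (y : ℝ) (k : ℕ) : ‖zl y + (k : ℂ)‖ ≤ ((k : ℝ) + 1) * (1 + |y|) := by
  have h1 : ‖zl y + (k : ℂ)‖ ≤ 1 / 2 + |y| + k := by
    unfold zl
    calc ‖(1 / 2 + y * Complex.I + (k : ℂ) : ℂ)‖ ≤ ‖(1 / 2 + y * Complex.I : ℂ)‖ + ‖(k : ℂ)‖ :=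
          norm_add_le _ _
      _ ≤ ‖(1 / 2 : ℂ)‖ + ‖(y * Complex.I : ℂ)‖ + ‖(k : ℂ)‖ := by
          gcongr
          exact norm_add_le _ _
      _ = 1 / 2 + |y| + k := by
          simp
  have h2 : (0 : ℝ) ≤ k := Nat.cast_nonneg k
  have h3 : 0 ≤ |y| := abs_nonneg y
  nlinarith [mul_nonneg h2 h3]

theorem An_le (a : ℕ) (y : ℝ) :
    ‖aeval (zl y) (An a)‖ ≤ (∏ i ∈ Finset.range a, ((i : ℝ) + 1)) * (1 + |y|) ^ a := by
  rw [aeval_An, norm_prod]
  calc ∏ i ∈ Finset.range a, ‖zl y + (i : ℂ)‖ ≤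
        ∏ i ∈ Finset.range a, (((i : ℝ) + 1) * (1 + |y|)) :=
        Finset.prod_le_prod (fun _ _ => norm_nonneg _) (fun i _ => norm_le y i)
    _ = _ := by
        rw [Finset.prod_mul_distrib, Finset.prod_const, Finset.card_range]

theorem Pn_ge (a b : ℕ) (y : ℝ) :
    (1 / 2 : ℝ) ^ (Finset.Icc a b).card ≤ ‖aeval (zl y) (Pn a b)‖ := by
  rw [aeval_Pn, norm_prod, ← Finset.prod_const]
  exact Finset.prod_le_prod (fun _ _ => by norm_num) (fun k _ => norm_ge y k)

theorem poly_le (q : ℝ[X]) (y : ℝ) :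
    |q.eval y| ≤ (∑ i ∈ Finset.range (q.natDegree + 1), |q.coeff i|) *
      (1 + |y|) ^ q.natDegree := by
  rw [eval_eq_sum_range, Finset.sum_mul]
  refine (Finset.abs_sum_le_sum_abs _ _).trans (Finset.sum_le_sum fun i hi => ?_)
  rw [abs_mul, abs_pow]
  apply mul_le_mul_of_nonneg_left _ (abs_nonneg _)
  have h1 : 0 ≤ |y| := abs_nonneg y
  calc |y| ^ i ≤ (1 + |y|) ^ i := pow_le_pow_left₀ h1 (by linarith) _
    _ ≤ (1 + |y|) ^ q.natDegree := pow_le_pow_right₀ (by linarith)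
        (by have := Finset.mem_range.mp hi; omega)

theorem cosh_ge (y : ℝ) : Real.exp |y| / 2 ≤ Real.cosh (Real.pi * y) := by
  rw [← Real.cosh_abs, abs_mul, abs_of_pos Real.pi_pos, Real.cosh_eq]
  have h1 : Real.exp |y| ≤ Real.exp (Real.pi * |y|) := by
    apply Real.exp_le_exp.mpr
    have := Real.pi_gt_three
    nlinarith [abs_nonneg y]
  have h2 := Real.exp_pos (-(Real.pi * |y|))
  linarith

theorem ww_cont (a b : ℕ) : Continuous (ww a b) := by
  have hz : Continuous zl := by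
    unfold zl
    fun_prop
  have h1 : ∀ P : ℚ[X], Continuous fun y : ℝ => ‖aeval (zl y) P‖ := by
    intro P
    exact ((Polynomial.continuous_aeval P).comp hz).norm
  unfold ww
  apply Continuous.div
  · apply Continuous.div (h1 _) (h1 _)
    intro y
    have := Pn_ge a b y
    have h2 : (0 : ℝ) < (1 / 2) ^ (Finset.Icc a b).card := by positivity
    linarith
  · exact Real.continuous_cosh.comp (continuous_const.mul continuous_id)
  · intro y
    exact (Real.cosh_pos _).ne'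

theorem decay (N : ℕ) (y : ℝ) :
    (1 + |y|) ^ N / Real.cosh (Real.pi * y) ≤
      2 * (Nat.factorial (N + 2)) * Real.exp 1 * (1 + y ^ 2)⁻¹ := by
  have h0 : 0 ≤ |y| := abs_nonneg y
  have hexp := Real.exp_pos |y|
  have h1 : (1 + |y|) ^ N / Real.cosh (Real.pi * y) ≤ (1 + |y|) ^ N / (Real.exp |y| / 2) := by
    apply div_le_div_of_nonneg_left (by positivity) (by positivity) (cosh_ge y)
  have h2 : (1 + |y|) ^ (N + 2) / (Nat.factorial (N + 2)) ≤ Real.exp (1 + |y|) :=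
    Real.pow_div_factorial_le_exp (1 + |y|) (by linarith) (N + 2)
  have hf : (0 : ℝ) < Nat.factorial (N + 2) := by exact_mod_cast Nat.factorial_pos _
  rw [div_le_iff₀ hf, Real.exp_add] at h2
  refine h1.trans ?_
  have hy : 0 < 1 + y ^ 2 := by positivity
  rw [div_le_iff₀ (by positivity)]
  have h3 : (1 + |y|) ^ N * (1 + y ^ 2) ≤ (1 + |y|) ^ (N + 2) := by
    rw [pow_add]
    apply mul_le_mul_of_nonneg_left _ (by positivity)
    nlinarith [sq_abs y]
  have h4 : (1 + |y|) ^ N * (1 + y ^ 2) ≤ Real.exp 1 * Real.exp |y| * (Nat.factorial (N + 2)) :=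
    h3.trans h2
  calc (1 + |y|) ^ N = ((1 + |y|) ^ N * (1 + y ^ 2)) * (1 + y ^ 2)⁻¹ := by
        field_simp
    _ ≤ (Real.exp 1 * Real.exp |y| * (Nat.factorial (N + 2))) * (1 + y ^ 2)⁻¹ := by
        apply mul_le_mul_of_nonneg_right h4 (by positivity)
    _ = _ := by ring

end Int768

open Int768 in
theorem G1_int : S_int := by
  intro a b _ q
  set K1 : ℝ := ∑ i ∈ Finset.range (q.natDegree + 1), |q.coeff i| with hK1
  set K2 : ℝ := ∏ i ∈ Finset.range a, ((i : ℝ) + 1) with hK2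
  set K3 : ℝ := (1 / 2 : ℝ) ^ (Finset.Icc a b).card with hK3
  have hK1' : 0 ≤ K1 := Finset.sum_nonneg fun _ _ => abs_nonneg _
  have hK2' : 0 ≤ K2 := Finset.prod_nonneg fun _ _ => by positivity
  have hK3' : 0 < K3 := by positivity
  set N := q.natDegree + a with hN
  have hint : Integrable fun y : ℝ => (K1 * K2 / K3 * (2 * (Nat.factorial (N + 2)) * Real.exp 1)) *
      (1 + y ^ 2)⁻¹ := integrable_inv_one_add_sq.const_mul _
  refine hint.mono' ?_ ?_
  · exact (q.continuous.mul (ww_cont a b)).aestronglyMeasurable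
  · refine ae_of_all _ fun y => ?_
    rw [Real.norm_eq_abs, abs_mul]
    have hc : 0 < Real.cosh (Real.pi * y) := Real.cosh_pos _
    have h1 : |ww a b y| ≤ K2 * (1 + |y|) ^ a / K3 / Real.cosh (Real.pi * y) := by
      unfold ww
      rw [abs_of_nonneg (by positivity)]
      apply div_le_div_of_nonneg_right _ hc.le
      exact div_le_div₀ (by positivity) (An_le a y) hK3' (Pn_ge a b y)
    calc |q.eval y| * |ww a b y| ≤ (K1 * (1 + |y|) ^ q.natDegree) *
          (K2 * (1 + |y|) ^ a / K3 / Real.cosh (Real.pi * y)) :=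
          mul_le_mul (poly_le q y) h1 (abs_nonneg _) (by positivity)
      _ = K1 * K2 / K3 * ((1 + |y|) ^ N / Real.cosh (Real.pi * y)) := by
          rw [hN, pow_add]
          field_simp
      _ ≤ K1 * K2 / K3 * (2 * (Nat.factorial (N + 2)) * Real.exp 1 * (1 + y ^ 2)⁻¹) := by
          apply mul_le_mul_of_nonneg_left (decay N y)
          positivity
      _ = _ := by ring

end Pool.Agent.LPB
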